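import Pool.Agent.Helper75.CR.St

/-!
# Project CR, module L3: words modulo a congruence, unsigned contents
-/

set_option autoImplicit false

namespace Pool.Agent.Helper8.CR

open Pool.Agent.Helper75.CR Helper1.IM

theorem hL3 (hL2 : StL2) : StL3 := by
  intro B S ρ hC hS u t hu ht
  have hJ : ∀ a ∈ t, Jl ρ u [a] := by
    intro a ha
    have h1 : a.1 ∈ cn t := mem_cn.2 ⟨a.2, ha⟩
    obtain ⟨b, hb⟩ := mem_cn.1 (ht h1)
    obtain ⟨x, y, hxy⟩ := List.append_of_mem hb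
    obtain ⟨p, d, hpd⟩ := hS a.1 b a.2
    refine ⟨x ++ p, d ++ y, ?_⟩
    have h2 := ρ.mul' x y hpd
    have e1 : x ++ [(a.1, b)] ++ y = u := by rw [hxy]; simp
    have e2 : x ++ (p ++ [(a.1, a.2)] ++ d) ++ y = x ++ p ++ [a] ++ (d ++ y) := by
      simp [List.append_assoc]
    rw [e1, e2] at h2
    exact h2
  obtain ⟨⟨s, hs⟩, ⟨s', hs'⟩, h3⟩ := hL2 B S ρ hC u t hu hJ
  obtain ⟨j, hj⟩ : ∃ j, j ∈ cn u := by
    cases u with
    | nil => exact absurd rfl hu
    | cons a u => exact ⟨a.1, by simp⟩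
  have key : ∃ f : ℕ → Wo B, (∀ i, f i ≠ []) ∧ (∀ i ∈ cn u, f i = [(i, S.o)]) ∧
      ∀ i, cn (f i) ⊆ cn u := by
    refine ⟨fun i => if i ∈ cn u then [(i, S.o)] else [(j, S.o)], ?_, ?_, ?_⟩
    · intro i
      by_cases h : i ∈ cn u <;> simp [h]
    · intro i hi
      simp [hi]
    · intro i
      by_cases h : i ∈ cn u <;> simp [h, hj]
  obtain ⟨f, hf, hfix, hcn⟩ := key
  have fu : sB S f u = u := sB_fix S f u hfix
  have ft : sB S f t = t := sB_fix S f t (fun i hi => hfix i (ht hi))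
  have fs : ∀ s : Wo B, cn (sB S f s) ⊆ cn u := by
    intro s
    rw [cn_sB]
    exact Finset.biUnion_subset.2 (fun i _ => hcn i)
  refine ⟨⟨sB S f s, ?_, fs s⟩, ⟨sB S f s', ?_, fs s'⟩, h3⟩
  · have h := ρ.sub' f hf hs
    rwa [sB_append, sB_append, fu, ft] at h
  · have h := ρ.sub' f hf hs'
    rwa [sB_append, sB_append, fu, ft] at h

end Pool.Agent.Helper8.CR
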