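import Pool.Agent.Helper75.CR.St3

/-!
# Project CR, module Q6: from the algebras of the variety to its equational theory
-/

set_option autoImplicit false

namespace Pool.Agent.Helper8.CR

open Pool.Agent.Helper75.CR Helper1.IM

theorem hQ6 : Pool.Agent.Helper75.CR.StQ6 := by
  intro θ h
  have ne : ∀ i : ℕ, ([X i] : Wd) ≠ [] := fun i => by simp
  obtain ⟨r, hr⟩ := h (FA θ) (FA_mem θ) (clFA θ [X 0] (ne 0)) (clFA θ [X 1] (ne 1))
    (clFA θ [X 2] (ne 2))
  obtain ⟨w, hw, rfl⟩ := clFA_surj θ r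
  rw [clFA_mul, clFA_mul, clFA_mul, clFA_mul, clFA_mul, clFA_eq] at hr
  exact ⟨w, by simpa using hr⟩

end Pool.Agent.Helper8.CR
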